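import Pool.Agent.K3h1.TF.Stm
import Pool.Agent.K3h1.FC.Dbl

/-!
# The curves `x ^ p + y ^ p = c z ^ p`: local disjointness for the double covering
-/

set_option autoImplicit false

namespace Pool.Agent.K3h20.TF

open Pool.Agent.K3h1.TF Pool.Agent.K3h1.FC

theorem t_DISR : S_DISR := by
  intro p r _ hr hns e x y w hx hy hw
  have hx1 : ‖x‖ ≤ 1 := hx.le
  have hy1 : ‖y‖ ≤ 1 := hy.le
  unfold fm at hw
  have hw1 : ‖w‖ ≤ 1 := by
    have h2 : ‖w ^ 2‖ ≤ 1 := by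
      rw [hw]
      exact na (na (nm (ni _) (np hx1 _)) (np hy1 _))
        (nm (ni _) (nm (nm hx1 (na hx1 hy1)) (np hy1 _)))
    rw [norm_pow] at h2
    exact (pow_le_one_iff_of_nonneg (norm_nonneg _) two_ne_zero).1 h2
  set f : ℤ_[r] →+* ZMod r := PadicInt.toZMod
  have hfX : f (mkI x hx1) ≠ 0 := fun h0 => hx.not_lt ((rs_eq_zero x hx1).1 h0)
  have hfY : f (mkI y hy1) ≠ 0 := fun h0 => hy.not_lt ((rs_eq_zero y hy1).1 h0)
  have e2 : (mkI w hw1) ^ 2 = ((ps p - 1 : ℤ) : ℤ_[r]) * (mkI x hx1) ^ (r - 1) +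
      (mkI y hy1) ^ (r - 1) + ((r * e : ℤ) : ℤ_[r]) *
        ((mkI x hx1) * ((mkI x hx1) + (mkI y hy1)) * (mkI y hy1) ^ (r - 3)) := Subtype.ext (by
    push_cast at hw ⊢
    exact hw)
  have h2 := congrArg f e2
  have a0 : ((r * e : ℤ) : ZMod r) = 0 := by
    push_cast
    rw [CharP.cast_eq_zero, zero_mul]
  rw [map_add, map_add, map_mul, map_mul, map_intCast, map_intCast, a0, zero_mul, add_zero,
    map_pow, map_pow, map_pow, ZMod.pow_card_sub_one_eq_one hfX, ZMod.pow_card_sub_one_eq_one hfY]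
    at h2
  apply hns
  refine ⟨f (mkI w hw1), ?_⟩
  rw [← sq, h2]
  push_cast
  ring

theorem norm_ps {p : ℕ} [Fact p.Prime] : ‖((ps p : ℤ) : ℚ_[p])‖ = (p : ℝ)⁻¹ := by
  unfold ps
  push_cast
  rw [norm_mul, norm_pow, norm_neg, norm_one, one_pow, one_mul, Padic.norm_p]

/-- the norm of `x ^ p + y ^ p` -/
theorem norm_sum_pow {p : ℕ} [Fact p.Prime] (hodd : Odd p) (x y : ℚ_[p]) (hx : ‖x‖ = 1)
    (hy : ‖y‖ ≤ 1) (hxy : ‖x + y‖ < 1) : ‖x ^ p + y ^ p‖ = ‖x + y‖ * (p : ℝ)⁻¹ := by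
  have hpp : p.Prime := Fact.out
  have hp1 : (1 : ℝ) < p := by exact_mod_cast hpp.one_lt
  let X : ℤ_[p] := mkI x hx.le
  let Y : ℤ_[p] := mkI y hy
  have h1 : ‖X + Y‖ < 1 := hxy
  obtain ⟨b, hb⟩ : (p : ℤ_[p]) ∣ X + Y := PadicInt.norm_lt_one_iff_dvd _ |>.1 h1
  have hY : -Y = X + p * (-b) := by linear_combination -hb
  obtain ⟨m, hm⟩ := odd_sq_dvd_geom_sum₂_sub (R := ℤ_[p]) (a := X) (b := -b) (p := p) hodd
  have hS : (∑ i ∈ Finset.range p, (-Y) ^ i * X ^ (p - 1 - i)) = p * X ^ (p - 1) + p ^ 2 * m := by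
    rw [hY]
    linear_combination hm
  have hE : X ^ p + Y ^ p = (X + Y) * (p * X ^ (p - 1) + p ^ 2 * m) := by
    have h3 := (Commute.all (-Y) X).mul_geom_sum₂ p
    rw [hS, hodd.neg_pow] at h3
    linear_combination h3
  have hE' : x ^ p + y ^ p = (x + y) * (p * x ^ (p - 1) + p ^ 2 * (m : ℚ_[p])) := by
    have := congrArg (fun u : ℤ_[p] => (u : ℚ_[p])) hE
    push_cast at this
    exact this
  rw [hE', norm_mul]
  congr 1
  have h4 : ‖(p : ℚ_[p]) * x ^ (p - 1)‖ = (p : ℝ)⁻¹ := by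
    rw [norm_mul, norm_pow, hx, one_pow, mul_one, Padic.norm_p]
  have h5 : ‖(p : ℚ_[p]) ^ 2 * (m : ℚ_[p])‖ < (p : ℝ)⁻¹ := by
    rw [norm_mul, norm_pow, Padic.norm_p]
    have h6 : ‖(m : ℚ_[p])‖ ≤ 1 := m.2
    have h7 : (0 : ℝ) < (p : ℝ)⁻¹ := by positivity
    have h8 : (p : ℝ)⁻¹ < 1 := inv_lt_one_of_one_lt₀ hp1
    calc ((p : ℝ)⁻¹) ^ 2 * ‖(m : ℚ_[p])‖ ≤ ((p : ℝ)⁻¹) ^ 2 * 1 := by gcongr
      _ < (p : ℝ)⁻¹ := by nlinarith
  rw [Padic.add_eq_max_of_ne (by rw [h4]; exact h5.ne'), h4, max_eq_left h5.le]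

theorem t_DISP : S_DISP := by
  intro p _ hp5 r hr hr5 c e x y z w hx1 hy1 hxy1 hz hxyz hw
  have hpp : p.Prime := Fact.out
  have hp1 : (1 : ℝ) < p := by exact_mod_cast hpp.one_lt
  have hodd : Odd p := hpp.odd_of_ne_two (by omega)
  have h0 : (0 : ℝ) < (p : ℝ)⁻¹ := by positivity
  have h01 : (p : ℝ)⁻¹ < 1 := inv_lt_one_of_one_lt₀ hp1
  -- the size of `x ^ p + y ^ p`
  have hz1 := Pool.Agent.K3h97.FC.DIS.norm_le_inv hz
  have hS : ‖x ^ p + y ^ p‖ ≤ ((p : ℝ)⁻¹) ^ 3 := by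
    rw [hxyz, norm_mul, norm_pow]
    have h1 := norm_nonneg z
    calc ‖(c : ℚ_[p])‖ * ‖z‖ ^ p ≤ 1 * ((p : ℝ)⁻¹) ^ p := by
          gcongr
          exact ni c
      _ ≤ ((p : ℝ)⁻¹) ^ 3 := by
          rw [one_mul]
          exact pow_le_pow_of_le_one h0.le h01.le (by omega)
  have hS1 : ‖x ^ p + y ^ p‖ < 1 := lt_of_le_of_lt hS (pow_lt_one₀ h0.le h01 three_ne_zero)
  have hxy : ‖x + y‖ < 1 := by
    rw [← norm_lt_one_of_pow _ p hpp.ne_zero]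
    have h3 := norm_add_pow_sub x y hx1 hy1
    have h4 : (x + y) ^ p = ((x + y) ^ p - (x ^ p + y ^ p)) + (x ^ p + y ^ p) := by ring
    rw [h4]
    exact norm_add_lt _ _ h3 hS1
  have hx : ‖x‖ = 1 := by
    rcases hxy1 with h | h
    · exact h
    · apply eq_one_of_not_lt hx1
      intro h1
      have h2 := norm_sub_lt _ _ hxy h1
      rw [add_sub_cancel_left] at h2
      exact h2.ne h
  have hxy2 : ‖x + y‖ ≤ ((p : ℝ)⁻¹) ^ 2 := by
    have h1 := norm_sum_pow hodd x y hx hy1 hxy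
    rw [h1, pow_succ] at hS
    exact le_of_mul_le_mul_right hS h0
  -- the rest is small
  have hd : ‖y ^ (r - 1) - x ^ (r - 1)‖ ≤ ‖x + y‖ := by
    let X : ℤ_[p] := mkI x hx1
    let Y : ℤ_[p] := mkI y hy1
    have hev : Even (r - 1) := by
      obtain ⟨k, rfl⟩ := hr
      exact ⟨k, by omega⟩
    have h1 : (Y - (-X)) ∣ Y ^ (r - 1) - (-X) ^ (r - 1) := sub_dvd_pow_sub_pow _ _ _
    rw [hev.neg_pow, sub_neg_eq_add] at h1
    obtain ⟨k, hk⟩ := h1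
    have h2 : y ^ (r - 1) - x ^ (r - 1) = (x + y) * (k : ℚ_[p]) := by
      have := congrArg (fun u : ℤ_[p] => (u : ℚ_[p])) hk
      push_cast at this
      rw [add_comm x y]
      exact this
    rw [h2, norm_mul]
    exact mul_le_of_le_one_right (norm_nonneg _) k.2
  have hd2 : ‖((r * e : ℤ) : ℚ_[p]) * (x * (x + y) * y ^ (r - 3))‖ ≤ ‖x + y‖ := by
    have h1 : ((r * e : ℤ) : ℚ_[p]) * (x * (x + y) * y ^ (r - 3)) =
        (x + y) * (((r * e : ℤ) : ℚ_[p]) * (x * y ^ (r - 3))) := by ring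
    rw [h1, norm_mul]
    exact mul_le_of_le_one_right (norm_nonneg _) (nm (ni _) (nm hx1 (np hy1 _)))
  have hm : ‖((ps p : ℤ) : ℚ_[p]) * x ^ (r - 1)‖ = (p : ℝ)⁻¹ := by
    rw [norm_mul, norm_ps, norm_pow, hx, one_pow, mul_one]
  have hrest : ‖(y ^ (r - 1) - x ^ (r - 1)) + ((r * e : ℤ) : ℚ_[p]) *
      (x * (x + y) * y ^ (r - 3))‖ < (p : ℝ)⁻¹ := by
    refine lt_of_le_of_lt (Padic.nonarchimedean _ _) (lt_of_le_of_lt (max_le hd hd2) ?_)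
    refine lt_of_le_of_lt hxy2 ?_
    nlinarith
  apply Pool.Agent.K3h97.FC.DIS.no_sqrt w
  have e1 : w ^ 2 = ((ps p : ℤ) : ℚ_[p]) * x ^ (r - 1) +
      ((y ^ (r - 1) - x ^ (r - 1)) + ((r * e : ℤ) : ℚ_[p]) * (x * (x + y) * y ^ (r - 3))) := by
    rw [hw]
    unfold fm
    push_cast
    ring
  rw [e1, Padic.add_eq_max_of_ne (by rw [hm]; exact hrest.ne'), hm, max_eq_left hrest.le]

end Pool.Agent.K3h20.TF
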